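import Pool.Agent.Q252.HE2

/-!
# Infinitely many cubic Hamiltonian graphs with Hamiltonian extension number `5`
-/

set_option autoImplicit false

namespace Pool.Agent.Results.MP_b9f640_co.ExtensionFive

open SimpleGraph Pool.Agent.Q252.HE

/-- The closed walk `C` is a Hamiltonian cycle of `G`: a cycle through all vertices. -/
def IsHam {V : Type} {G : SimpleGraph V} {a : V} (C : G.Walk a a) : Prop :=
  C.IsCycle ∧ ∀ x, x ∈ C.support

/-- The walk `P` lies on some Hamiltonian cycle of `G`: all its vertices and all its edges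
belong to the cycle. -/
def LiesOnHam {V : Type} {G : SimpleGraph V} {u v : V} (P : G.Walk u v) : Prop :=
  ∃ (a : V) (C : G.Walk a a), IsHam C ∧ (∀ x ∈ P.support, x ∈ C.support) ∧
    ∀ e ∈ P.edges, e ∈ C.edges

/-- Every path of order `i` (that is, with `i` vertices), `1 ≤ i ≤ k`, lies on a Hamiltonian
cycle of `G`. -/
def PathsLie {V : Type} (G : SimpleGraph V) (k : ℕ) : Prop :=
  ∀ i, 1 ≤ i → i ≤ k → ∀ (u v : V) (P : G.Walk u v), P.IsPath → P.length + 1 = i → LiesOnHam P

/-- The Hamiltonian extension number of `G` is `k`: it is the largest `k ≥ 1` such that every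
path of order at most `k` lies on a Hamiltonian cycle. -/
def ExtensionNumberIs {V : Type} (G : SimpleGraph V) (k : ℕ) : Prop :=
  IsGreatest {k : ℕ | 1 ≤ k ∧ PathsLie G k} k

theorem two_nbrs {V : Type} {G : SimpleGraph V} {u : V} {C : G.Walk u u} (hC : C.IsCycle)
    {v a b c : V} (hab : a ≠ b) (ha : s(v, a) ∈ C.edges) (hb : s(v, b) ∈ C.edges)
    (hc : s(v, c) ∈ C.edges) : c = a ∨ c = b := by
  have hv : v ∈ C.support := C.fst_mem_support_of_mem_edges ha
  have h2 := hC.ncard_neighborSet_toSubgraph_eq_two hv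
  obtain ⟨x, y, hxy, hs⟩ := Set.ncard_eq_two.1 h2
  have ha' : a ∈ C.toSubgraph.neighborSet v := (Walk.adj_toSubgraph_iff_mem_edges).2 ha
  have hb' : b ∈ C.toSubgraph.neighborSet v := (Walk.adj_toSubgraph_iff_mem_edges).2 hb
  have hc' : c ∈ C.toSubgraph.neighborSet v := (Walk.adj_toSubgraph_iff_mem_edges).2 hc
  rw [hs] at ha' hb' hc'
  simp only [Set.mem_insert_iff, Set.mem_singleton_iff] at ha' hb' hc'
  rcases ha' with rfl | rfl <;> rcases hb' with rfl | rfl <;> rcases hc' with rfl | rfl <;> simp_all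

theorem castne {n k m : ℕ} (hk : k < n) (hm : m < n) (h : k ≠ m) :
    ((k : ℕ) : ZMod n) ≠ ((m : ℕ) : ZMod n) := by
  intro h'
  rw [ZMod.natCast_eq_natCast_iff', Nat.mod_eq_of_lt hk, Nat.mod_eq_of_lt hm] at h'
  exact h h'

theorem not_six {n : ℕ} (hn : 16 ≤ n) : ¬ PathsLie (gp n) 6 := by
  intro h
  let x : Fin 6 → ZMod n × Bool := ![(((0 : ℕ) : ZMod n), false), (((1 : ℕ) : ZMod n), false),
    (((2 : ℕ) : ZMod n), false), (((3 : ℕ) : ZMod n), false), (((3 : ℕ) : ZMod n), true),
    (((5 : ℕ) : ZMod n), true)]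
  have a0 : (gp n).Adj (x 0) (x 1) := (gp_adj (by omega) _ _).2 ⟨0, by simp [x, stp]⟩
  have a1 : (gp n).Adj (x 1) (x 2) := (gp_adj (by omega) _ _).2 ⟨0, by
    simp [x, stp]; norm_num⟩
  have a2 : (gp n).Adj (x 2) (x 3) := (gp_adj (by omega) _ _).2 ⟨0, by
    simp [x, stp]; norm_num⟩
  have a3 : (gp n).Adj (x 3) (x 4) := (gp_adj (by omega) _ _).2 ⟨2, by simp [x, stp]⟩
  have a4 : (gp n).Adj (x 4) (x 5) := (gp_adj (by omega) _ _).2 ⟨0, by
    simp [x, stp]; norm_num⟩
  let P : (gp n).Walk (x 0) (x 5) := Walk.cons a0 (Walk.cons a1 (Walk.cons a2 (Walk.cons a3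
    (Walk.cons a4 Walk.nil))))
  have e01 := castne (n := n) (k := 0) (m := 1) (by omega) (by omega) (by omega)
  have e02 := castne (n := n) (k := 0) (m := 2) (by omega) (by omega) (by omega)
  have e03 := castne (n := n) (k := 0) (m := 3) (by omega) (by omega) (by omega)
  have e12 := castne (n := n) (k := 1) (m := 2) (by omega) (by omega) (by omega)
  have e13 := castne (n := n) (k := 1) (m := 3) (by omega) (by omega) (by omega)
  have e23 := castne (n := n) (k := 2) (m := 3) (by omega) (by omega) (by omega)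
  have e35 := castne (n := n) (k := 3) (m := 5) (by omega) (by omega) (by omega)
  have e15 := castne (n := n) (k := 1) (m := 5) (by omega) (by omega) (by omega)
  have hP : P.IsPath := by
    rw [Walk.isPath_def]
    show [x 0, x 1, x 2, x 3, x 4, x 5].Nodup
    simp only [List.nodup_cons, List.mem_cons, List.not_mem_nil, or_false, not_or, x,
      Matrix.cons_val, Prod.mk.injEq, not_and, List.nodup_nil, and_true, not_false_eq_true]
    refine ⟨⟨?_, ?_, ?_, ?_, ?_⟩, ⟨?_, ?_, ?_, ?_⟩, ⟨?_, ?_, ?_⟩, ⟨?_, ?_⟩, ?_⟩ <;> intro h' <;>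
      first | exact absurd h' e01 | exact absurd h' e02 | exact absurd h' e03 |
        exact absurd h' e12 | exact absurd h' e13 | exact absurd h' e23 | exact absurd h' e35 |
        simp
  obtain ⟨a, C, ⟨hC, hall⟩, -, hE⟩ := h 6 (by norm_num) le_rfl _ _ P hP rfl
  have g0 : s(x 0, x 1) ∈ C.edges := hE _ (by simp [P])
  have g1 : s(x 1, x 2) ∈ C.edges := hE _ (by simp [P])
  have g3 : s(x 3, x 4) ∈ C.edges := hE _ (by simp [P])
  have g4 : s(x 4, x 5) ∈ C.edges := hE _ (by simp [P])
  -- the inner vertex `1`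
  let w : ZMod n × Bool := (((1 : ℕ) : ZMod n), true)
  have h2 := hC.ncard_neighborSet_toSubgraph_eq_two (hall w)
  have hsub : C.toSubgraph.neighborSet w ⊆ {stp 1 w} := by
    intro z hz
    have hz' : s(w, z) ∈ C.edges := (Walk.adj_toSubgraph_iff_mem_edges).1 hz
    have hadj : (gp n).Adj w z := C.adj_of_mem_edges hz'
    obtain ⟨s, rfl⟩ := (gp_adj (by omega) _ _).1 hadj
    fin_cases s
    · exfalso
      have hs : stp 0 w = x 4 := by
        simp [stp, w, x]; norm_num
      have hz'' : s(w, x 4) ∈ C.edges := by rw [← hs]; exact hz'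
      rw [Sym2.eq_swap] at hz'' g3
      rcases two_nbrs hC (a := x 3) (b := x 5) (by
        intro h'
        have := congrArg Prod.snd h'
        simp [x] at this) g3 g4 hz'' with h' | h'
      · have := congrArg Prod.snd h'
        simp [x, w] at this
      · have := congrArg Prod.fst h'
        exact e15 this
    · rfl
    · exfalso
      have hs : stp 2 w = x 1 := by
        simp [stp, w, x]
      have hz'' : s(w, x 1) ∈ C.edges := by rw [← hs]; exact hz'
      rw [Sym2.eq_swap] at hz'' g0
      rcases two_nbrs hC (a := x 0) (b := x 2) (by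
        intro h'
        have := congrArg Prod.fst h'
        exact e02 this) g0 g1 hz'' with h' | h'
      · have := congrArg Prod.snd h'
        simp [x, w] at this
      · have := congrArg Prod.snd h'
        simp [x, w] at this
  have h1 : (C.toSubgraph.neighborSet w).ncard ≤ 1 := by
    calc (C.toSubgraph.neighborSet w).ncard ≤ ({stp 1 w} : Set (ZMod n × Bool)).ncard :=
          Set.ncard_le_ncard hsub (Set.finite_singleton _)
      _ = 1 := Set.ncard_singleton _
  omega

theorem cubic {n : ℕ} (hn : 16 ≤ n) (v : ZMod n × Bool) : ((gp n).neighborSet v).ncard = 3 := by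
  have h : (gp n).neighborSet v = {stp 0 v, stp 1 v, stp 2 v} := by
    ext z
    simp only [SimpleGraph.mem_neighborSet, Set.mem_insert_iff, Set.mem_singleton_iff]
    rw [gp_adj (by omega)]
    constructor
    · rintro ⟨s, rfl⟩
      fin_cases s <;> simp
    · rintro (h | h | h)
      · exact ⟨0, h⟩
      · exact ⟨1, h⟩
      · exact ⟨2, h⟩
  have h2 : (2 : ZMod n) ≠ 0 := by
    have := natCast_ne_zero (n := n) (k := 2) (by omega) (by omega)
    simpa using this
  have h4 : (4 : ZMod n) ≠ 0 := by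
    have := natCast_ne_zero (n := n) (k := 4) (by omega) (by omega)
    simpa using this
  obtain ⟨i, l⟩ := v
  have n01 : stp 0 (i, l) ≠ stp 1 (i, l) := by
    intro h'
    cases l
    · simp [stp] at h'
      apply h2
      linear_combination h'
    · simp [stp] at h'
      apply h4
      linear_combination h'
  have n02 : stp 0 (i, l) ≠ stp 2 (i, l) := by
    intro h'
    cases l <;> simp [stp] at h'
  have n12 : stp 1 (i, l) ≠ stp 2 (i, l) := by
    intro h'
    cases l <;> simp [stp] at h'
  rw [h]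
  exact Set.ncard_eq_three.2 ⟨_, _, _, n01, n02, n12, rfl⟩

/-- **Result.** There are infinitely many pairwise non-isomorphic finite `3`-regular Hamiltonian
graphs whose Hamiltonian extension number is `5`. -/
theorem result : ∃ (V : ℕ → Type) (_ : ∀ t, Finite (V t)) (G : ∀ t, SimpleGraph (V t)),
    (∀ t, (∀ v, ((G t).neighborSet v).ncard = 3) ∧ (∃ (a : V t) (C : (G t).Walk a a), IsHam C) ∧
      ExtensionNumberIs (G t) 5) ∧
    ∀ t t', t ≠ t' → IsEmpty (G t ≃g G t') := by
  have hNZ : ∀ t : ℕ, NeZero (16 + 6 * t) := fun t => ⟨by omega⟩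
  refine ⟨fun t => ZMod (16 + 6 * t) × Bool, fun t => ?_, fun t => gp (16 + 6 * t), ?_, ?_⟩
  · have := hNZ t
    infer_instance
  · intro t
    refine ⟨cubic (by omega), ?_, ⟨⟨by norm_num, ?_⟩, ?_⟩⟩
    · obtain ⟨a, C, h1, h2, -⟩ := ham_A t (Or.inl rfl) (0 : ZMod (16 + 6 * t))
      exact ⟨a, C, h1, h2⟩
    · intro i hi hi5 u v P hP hlen
      obtain ⟨w, q, g1, g2, g3⟩ := short_path t P hP (by omega)
      exact ⟨w, q, ⟨g1, g2⟩, fun x _ => g2 x, g3⟩
    · intro k hk
      by_contra hlt
      push Not at hlt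
      apply not_six (n := 16 + 6 * t) (by omega)
      intro i hi hi6 u v P hP hlen
      exact hk.2 i hi (by omega) u v P hP hlen
  · intro t t' htt
    refine ⟨fun φ => htt ?_⟩
    have := hNZ t
    have := hNZ t'
    have hc := Fintype.card_congr φ.toEquiv
    rw [Fintype.card_prod, Fintype.card_prod, ZMod.card, ZMod.card, Fintype.card_bool] at hc
    omega

end Pool.Agent.Results.MP_b9f640_co.ExtensionFive
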